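import Pool.Agent.Q121.MM.Tens

set_option autoImplicit false
set_option linter.unusedSectionVars false

/-!
# Torsion-free tensor product of an ideal with its canonical dual

`R` is a one-dimensional Noetherian local domain of minimal multiplicity with canonical module `ω`, and `I` a nonzero ideal
such that `I ⊗ Hom(I, ω)` is torsion-free.  Then `I ≅ R` or `I ≅ ω`.
-/

namespace Pool.Agent.Results.MP_9a1833_al.FreeOrCanonical

open Pool.Agent.Q121.MM IsLocalRing
open scoped TensorProduct

/-- A module over a domain is torsion-free. -/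
def IsTorsionFreeModule (R : Type*) [CommRing R] (N : Type*) [AddCommGroup N] [Module R N] : Prop :=
  ∀ (r : R) (x : N), r • x = 0 → r = 0 ∨ x = 0

/-- `W` is a canonical (fractional) ideal of the domain `R` (Herzog, Kunz): a nonzero finitely generated submodule of the
field of fractions with `W : (W : N) = N` for all nonzero finitely generated submodules `N` of the field of fractions. -/
def IsCanonicalFractionalIdeal (R : Type*) [CommRing R] [IsDomain R] (W : Submodule R (FractionRing R)) : Prop :=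
  W ≠ ⊥ ∧ W.FG ∧ ∀ N : Submodule R (FractionRing R), N ≠ ⊥ → N.FG → W / (W / N) = N

/-- `ω` is a canonical module of the one-dimensional Noetherian local domain `R`: it is isomorphic to a canonical fractional
ideal. -/
def IsCanonicalModule (R : Type*) [CommRing R] [IsDomain R] (ω : Type*) [AddCommGroup ω] [Module R ω] : Prop :=
  ∃ W : Submodule R (FractionRing R), IsCanonicalFractionalIdeal R W ∧ Nonempty (ω ≃ₗ[R] W)

/-- The one-dimensional local domain `R` has minimal multiplicity: the maximal ideal `m` is stable, `m ^ 2 = x m` for some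
`x ∈ m`. -/
def MinimalMultiplicity (R : Type*) [CommRing R] [IsLocalRing R] : Prop :=
  ∃ x ∈ maximalIdeal R, maximalIdeal R ^ 2 = Ideal.span {x} * maximalIdeal R

/-- `R` is one-dimensional. -/
def IsOneDimensional (R : Type*) [CommRing R] : Prop := Ring.KrullDimLE 1 R ∧ ¬ IsField R

theorem result (R : Type*) [CommRing R] [IsDomain R] [IsLocalRing R] [IsNoetherianRing R]
    (ω : Type*) [AddCommGroup ω] [Module R ω]
    (h1 : IsOneDimensional R) (hω : IsCanonicalModule R ω) (hm : MinimalMultiplicity R)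
    (I : Ideal R) (hI : I ≠ ⊥) (h : IsTorsionFreeModule R (I ⊗[R] (I →ₗ[R] ω))) :
    Nonempty (I ≃ₗ[R] R) ∨ Nonempty (I ≃ₗ[R] ω) := by
  have := h1.1
  obtain ⟨W, ⟨hW1, hW2, hW3⟩, ⟨eω⟩⟩ := hω
  obtain ⟨x, hx, hm⟩ := hm
  let K := FractionRing R
  have hinj : Function.Injective (Algebra.linearMap R K) := FaithfulSMul.algebraMap_injective R K
  let I' : Submodule R K := Submodule.map (Algebra.linearMap R K) I
  have eI : I ≃ₗ[R] I' := Submodule.equivMapOfInjective _ hinj I
  have hI' : I' ≠ ⊥ := by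
    intro h0
    apply hI
    exact Submodule.map_injective_of_injective hinj (h0.trans (Submodule.map_bot _).symm)
  have hfg : I'.FG := (IsNoetherian.noetherian I).map _
  have hJ : W / I' ≠ ⊥ := div_ne_bot hW1 hfg
  have hJfg : (W / I').FG := div_fg hW2 hI'
  have e1 : (I →ₗ[R] ω) ≃ₗ[R] (W / I' : Submodule R K) :=
    (LinearEquiv.arrowCongr eI eω).trans (divEquiv hI').symm
  have e2 : (I ⊗[R] (I →ₗ[R] ω)) ≃ₗ[R] (I' ⊗[R] (W / I' : Submodule R K)) := TensorProduct.congr eI e1
  have h2 : TorsionFree R (I' ⊗[R] (W / I' : Submodule R K)) := TorsionFree.of_equiv e2 h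
  have h3 := ln_tens hI' hJ hfg hJfg h2
  rcases (stable_of (K := K) h1.2 hx hm).main ⟨hW1, hW2, hW3⟩ h1.2 hfg hI' h3 with ⟨a, ha, h4⟩ | ⟨a, ha, h4⟩
  · left
    have e3 : (sp R a : Submodule R K) ≃ₗ[R] R := (LinearEquiv.toSpanNonzeroSingleton R K a ha).symm
    have e4 : I' ≃ₗ[R] (sp R a : Submodule R K) := LinearEquiv.ofEq _ _ h4
    exact ⟨(eI.trans e4).trans e3⟩
  · right
    have e4 : I' ≃ₗ[R] (sp R a * W : Submodule R K) := LinearEquiv.ofEq _ _ h4
    suffices e3 : W ≃ₗ[R] (sp R a * W : Submodule R K) from ⟨((eI.trans e4).trans e3.symm).trans eω.symm⟩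
    refine (LinearEquiv.ofBijective
      ({ toFun := fun w => ⟨a * w.1, mem_sp_mul.2 ⟨w.1, w.2, rfl⟩⟩
         map_add' := fun v w => Subtype.ext (mul_add _ _ _)
         map_smul' := fun r w => Subtype.ext (mul_smul_comm r a w.1) } : W →ₗ[R] (sp R a * W : Submodule R K)) ⟨?_, ?_⟩)
    · intro v w hvw
      exact Subtype.ext (mul_left_cancel₀ ha (congrArg Subtype.val hvw))
    · rintro ⟨y, hy⟩
      obtain ⟨w, hw, rfl⟩ := mem_sp_mul.1 hy
      exact ⟨⟨w, hw⟩, rfl⟩

end Pool.Agent.Results.MP_9a1833_al.FreeOrCanonical
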